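import Mathlib

namespace Pool.Agent.Results.MP_c0a553_nt.EvenExponents

/-- For a rational matrix `M` (the Gram matrix of the quadratic form
`Q(x) = ∑ i j, M i j * x i * x j`) and a field `K`, the value at `y ∈ K^ι` of
`F(y) = Q(y ^ k) = ∑ i j, M i j * (y i) ^ k * (y j) ^ k`. -/
noncomputable def formValue {ι : Type} [Fintype ι] (k : ℕ) (M : Matrix ι ι ℚ)
    (K : Type) [Field K] (y : ι → K) : K :=
  ∑ i, ∑ j, ((M i j : ℚ) : K) * y i ^ k * y j ^ k

/-- `F(y) = Q(y ^ k)` has a nontrivial zero over the field `K`. -/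
def HasZero {ι : Type} [Fintype ι] (k : ℕ) (M : Matrix ι ι ℚ) (K : Type) [Field K] : Prop :=
  ∃ y : ι → K, y ≠ 0 ∧ formValue k M K y = 0

/-- The form `F(y) = Q(y ^ k)` satisfies the Hasse principle. -/
def HassePrinciple {s : ℕ} (k : ℕ) (M : Matrix (Fin s) (Fin s) ℚ) : Prop :=
  (HasZero k M ℝ ∧ ∀ (p : ℕ) [Fact p.Prime], HasZero k M ℚ_[p]) → HasZero k M ℚ

/-- `s₀` is admissible for `k`: for every `s ≥ s₀`, every form `Q(y ^ k)` with `Q` a nonsingular
rational quadratic form in `s` variables satisfies the Hasse principle. -/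
def Admissible (k s₀ : ℕ) : Prop :=
  ∀ s : ℕ, s₀ ≤ s → ∀ M : Matrix (Fin s) (Fin s) ℚ, M.IsSymm → M.det ≠ 0 → HassePrinciple k M

/-- `h k` is the least admissible `s₀` (and `⊤` if there is none). -/
noncomputable def h (k : ℕ) : ℕ∞ := ⨅ s₀ ∈ {s₀ : ℕ | Admissible k s₀}, (s₀ : ℕ∞)

/-- The assertion `log h(k) = o(k)`. -/
def LogLittleO : Prop :=
  ∀ ε : ℝ, 0 < ε → ∃ K : ℕ, ∀ k : ℕ, K ≤ k → h k ≠ ⊤ ∧ Real.log ((h k).toNat : ℝ) ≤ ε * k

/-! ### The diagonal part has `p`-adic zeros -/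

/-- Chevalley-Warning: a sum of more than `d` `d`-th powers has a nontrivial zero mod `p`. -/
theorem exists_zero_zmod (p : ℕ) [Fact p.Prime] (d m : ℕ) (hm : d < m) (hd : 0 < d) :
    ∃ x : Fin m → ZMod p, x ≠ 0 ∧ ∑ i, x i ^ d = 0 := by
  classical
  let f : MvPolynomial (Fin m) (ZMod p) := ∑ i, MvPolynomial.X i ^ d
  have hdeg : f.totalDegree < Fintype.card (Fin m) := by
    refine lt_of_le_of_lt ?_ (by simpa using hm)
    refine (MvPolynomial.totalDegree_finsetSum _ _).trans ?_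
    refine Finset.sup_le fun i _ => ?_
    simp [MvPolynomial.totalDegree_X_pow]
  have hdvd := char_dvd_card_solutions p hdeg
  by_contra hcon
  push Not at hcon
  have hone : Fintype.card { x : Fin m → ZMod p // MvPolynomial.eval x f = 0 } = 1 := by
    rw [Fintype.card_eq_one_iff]
    refine ⟨⟨0, ?_⟩, ?_⟩
    · simp [f, hd.ne']
    · rintro ⟨x, hx⟩
      by_contra hne
      have hx0 : x ≠ 0 := by
        intro h0
        exact hne (Subtype.ext h0)
      apply hcon x hx0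
      simpa [f] using hx
  rw [hone] at hdvd
  have := Nat.le_of_dvd one_pos hdvd
  have h2 := (Fact.out : p.Prime).two_le
  omega

/-- the case `p ∤ d`. -/
theorem padic_zero_of_not_dvd (p : ℕ) [Fact p.Prime] (d m : ℕ) (hm : d < m) (hd : 0 < d)
    (hpd : ¬ p ∣ d) : ∃ x : Fin m → ℤ_[p], x ≠ 0 ∧ ∑ i, x i ^ d = 0 := by
  classical
  obtain ⟨x, hx0, hx⟩ := exists_zero_zmod p d m hm hd
  obtain ⟨j, hj⟩ : ∃ j, x j ≠ 0 := by
    by_contra hcon
    push Not at hcon
    exact hx0 (funext hcon)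
  let a : Fin m → ℤ_[p] := fun i => ((x i).val : ℤ_[p])
  have ha : ∀ i, PadicInt.toZMod (a i) = x i := by
    intro i
    simp [a]
  let c : ℤ_[p] := ∑ i ∈ Finset.univ.erase j, a i ^ d
  let F : Polynomial ℤ_[p] := Polynomial.X ^ d + Polynomial.C c
  have hker : ∀ z : ℤ_[p], PadicInt.toZMod z = 0 ↔ ‖z‖ < 1 := by
    intro z
    rw [← RingHom.mem_ker, PadicInt.ker_toZMod, PadicInt.maximalIdeal_eq_span_p,
      Ideal.mem_span_singleton, PadicInt.norm_lt_one_iff_dvd]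
  have hF1 : ‖(Polynomial.aeval (a j)) F‖ < 1 := by
    rw [← hker]
    simp only [F, c, map_add, map_pow, Polynomial.aeval_X, Polynomial.aeval_C, map_sum,
      Algebra.algebraMap_self, RingHom.id_apply, ha]
    rw [Finset.add_sum_erase _ (fun i => x i ^ d) (Finset.mem_univ j)]
    exact hx
  have hF2 : ‖(Polynomial.aeval (a j)) (Polynomial.derivative F)‖ = 1 := by
    have h1 : (Polynomial.aeval (a j)) (Polynomial.derivative F) = (d : ℤ_[p]) * a j ^ (d - 1) := by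
      simp [F, Polynomial.derivative_X_pow]
    rw [h1]
    have h2 : ¬ ‖(d : ℤ_[p]) * a j ^ (d - 1)‖ < 1 := by
      rw [← hker]
      simp only [map_mul, map_pow, map_natCast, ha]
      apply mul_ne_zero
      · rwa [Ne, ZMod.natCast_eq_zero_iff]
      · exact pow_ne_zero _ hj
    exact le_antisymm (PadicInt.norm_le_one _) (not_lt.mp h2)
  have hH : ‖(Polynomial.aeval (a j)) F‖ <
      ‖(Polynomial.aeval (a j)) (Polynomial.derivative F)‖ ^ 2 := by
    rw [hF2]; simpa using hF1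
  obtain ⟨z, hz, hza, -, -⟩ := hensels_lemma hH
  rw [hF2] at hza
  refine ⟨Function.update a j z, ?_, ?_⟩
  · intro h0
    have hz0 : z = 0 := by
      have := congrFun h0 j
      simpa using this
    rw [hz0, zero_sub, norm_neg, ← hker, ha] at hza
    exact hj hza
  · rw [← Finset.add_sum_erase _ _ (Finset.mem_univ j)]
    rw [Function.update_self]
    have hsum : ∑ i ∈ Finset.univ.erase j, Function.update a j z i ^ d = c := by
      refine Finset.sum_congr rfl fun i hi => ?_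
      rw [Function.update_of_ne (Finset.ne_of_mem_erase hi)]
    rw [hsum]
    simpa [F] using hz

/-- the case `p ∣ d`. -/
theorem padic_zero_of_dvd (p : ℕ) [Fact p.Prime] (d m : ℕ) (hm : d ^ 3 ≤ m) (hd : 0 < d)
    (hpd : p ∣ d) : ∃ x : Fin m → ℤ_[p], x ≠ 0 ∧ ∑ i, x i ^ d = 0 := by
  classical
  obtain ⟨v, u, hu, hdv⟩ := Nat.exists_eq_pow_mul_and_not_dvd hd.ne' p (Fact.out : p.Prime).ne_one
  have hp1 : 1 < p := (Fact.out : p.Prime).one_lt
  have hv : 1 ≤ v := by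
    rcases Nat.eq_zero_or_pos v with h0 | h0
    · subst h0
      rw [pow_zero, one_mul] at hdv
      exact absurd (hdv ▸ hpd) hu
    · exact h0
  have hu0 : 0 < u := by
    rcases Nat.eq_zero_or_pos u with h0 | h0
    · subst h0; simp at hu
    · exact h0
  have hle : p ^ (2 * v + 1) ≤ d ^ 3 := by
    have h1 : p ^ v ≤ d := by
      rw [hdv]; exact Nat.le_mul_of_pos_right _ hu0
    have h2 : p ≤ d := Nat.le_of_dvd hd hpd
    calc p ^ (2 * v + 1) = p ^ v * p ^ v * p := by ring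
      _ ≤ d * d * d := Nat.mul_le_mul (Nat.mul_le_mul h1 h1) h2
      _ = d ^ 3 := by ring
  have hpm : p ^ (2 * v + 1) ≤ m := hle.trans hm
  set P : ℕ := p ^ (2 * v + 1) with hP
  have hP1 : 1 ≤ P := Nat.one_le_pow _ _ (by omega)
  let F : Polynomial ℤ_[p] := Polynomial.X ^ d - Polynomial.C (1 - (P : ℤ_[p]))
  have e1 : (Polynomial.aeval (1 : ℤ_[p])) F = (p : ℤ_[p]) ^ (2 * v + 1) := by
    simp [F, hP]
  have e2 : (Polynomial.aeval (1 : ℤ_[p])) (Polynomial.derivative F) = (d : ℤ_[p]) := by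
    simp [F, Polynomial.derivative_X_pow]
  have n1 : ‖(p : ℤ_[p]) ^ (2 * v + 1)‖ = ((p : ℝ)⁻¹) ^ (2 * v + 1) := by
    rw [norm_pow, PadicInt.norm_p]
  have n2 : ‖(d : ℤ_[p])‖ = ((p : ℝ)⁻¹) ^ v := by
    rw [hdv]
    push_cast
    rw [norm_mul, norm_pow, PadicInt.norm_p]
    have : ‖(u : ℤ_[p])‖ = 1 := by
      rw [PadicInt.norm_natCast_eq_one_iff]
      exact (Nat.Prime.coprime_iff_not_dvd Fact.out).mpr hu
    rw [this, mul_one]
  have hH : ‖(Polynomial.aeval (1 : ℤ_[p])) F‖ <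
      ‖(Polynomial.aeval (1 : ℤ_[p])) (Polynomial.derivative F)‖ ^ 2 := by
    rw [e1, e2, n1, n2, ← pow_mul]
    apply pow_lt_pow_right_of_lt_one₀
    · have : (0 : ℝ) < p := by exact_mod_cast (by omega : 0 < p)
      positivity
    · have : (1 : ℝ) < p := by exact_mod_cast hp1
      exact inv_lt_one_of_one_lt₀ this
    · omega
  obtain ⟨z, hz, -, -, -⟩ := hensels_lemma hH
  have hz' : z ^ d = 1 - (P : ℤ_[p]) := by
    have : z ^ d - (1 - (P : ℤ_[p])) = 0 := by simpa [F] using hz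
    exact sub_eq_zero.mp this
  obtain ⟨m', rfl⟩ : ∃ m', m = P - 1 + 1 + m' := ⟨m - P, by omega⟩
  refine ⟨Fin.append (Fin.snoc (fun _ : Fin (P - 1) => (1 : ℤ_[p])) z) (fun _ => 0), ?_, ?_⟩
  · intro h0
    have hP2 : 1 < P := Nat.one_lt_pow (by omega) hp1
    have := congrFun h0 (Fin.castAdd m' (Fin.castSucc (⟨0, by omega⟩ : Fin (P - 1))))
    rw [Fin.append_left, Fin.snoc_castSucc] at this
    exact one_ne_zero this
  · rw [Fin.sum_univ_add]
    simp only [Fin.append_left, Fin.append_right]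
    rw [Fin.sum_univ_castSucc]
    simp only [Fin.snoc_castSucc, Fin.snoc_last, one_pow, Finset.sum_const, Finset.card_univ,
      Fintype.card_fin, nsmul_eq_mul, mul_one, hz', zero_pow hd.ne', mul_zero, add_zero]
    push_cast [Nat.cast_sub hP1]
    ring

theorem padic_zero (p : ℕ) [Fact p.Prime] (d m : ℕ) (hm : d ^ 3 ≤ m) (hd : 2 ≤ d) :
    ∃ x : Fin m → ℚ_[p], x ≠ 0 ∧ ∑ i, x i ^ d = 0 := by
  have key : ∃ x : Fin m → ℤ_[p], x ≠ 0 ∧ ∑ i, x i ^ d = 0 := by
    by_cases hpd : p ∣ d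
    · exact padic_zero_of_dvd p d m hm (by omega) hpd
    · refine padic_zero_of_not_dvd p d m ?_ (by omega) hpd
      have : d * 2 * 2 ≤ d ^ 3 := by
        calc d * 2 * 2 ≤ d * d * d := Nat.mul_le_mul (Nat.mul_le_mul le_rfl hd) hd
          _ = d ^ 3 := by ring
      omega
  obtain ⟨x, hx0, hx⟩ := key
  refine ⟨fun i => (x i : ℚ_[p]), ?_, ?_⟩
  · intro h0
    apply hx0
    funext i
    have h1 : (x i : ℚ_[p]) = 0 := congrFun h0 i
    exact Subtype.ext h1
  · have := congrArg (fun z : ℤ_[p] => (z : ℚ_[p])) hx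
    simpa using this

/-! ### The quadratic form -/

/-- Gram matrix of `(x₀ - 2 x₁)² + 2 x₀ x₂ + x₂²`. -/
def A : Matrix (Fin 3) (Fin 3) ℚ := !![1, -2, 1; -2, 4, 0; 1, 0, 1]

/-- Gram matrix of `Q(x, w) = (x₀ - 2 x₁)² + 2 x₀ x₂ + x₂² + ∑ j, w j ^ 2`,
with variables indexed by `Fin 3 ⊕ Fin m`. -/
def B (m : ℕ) : Matrix (Fin 3 ⊕ Fin m) (Fin 3 ⊕ Fin m) ℚ := Matrix.fromBlocks A 0 0 1

theorem B_symm (m : ℕ) : (B m).IsSymm := by
  unfold B
  refine Matrix.IsSymm.fromBlocks ?_ (by simp) (by simp [Matrix.IsSymm])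
  unfold A
  ext i j
  fin_cases i <;> fin_cases j <;> simp

theorem B_det (m : ℕ) : (B m).det ≠ 0 := by
  unfold B
  rw [Matrix.det_fromBlocks_zero₂₁, Matrix.det_one, mul_one]
  unfold A
  rw [Matrix.det_fin_three]
  simp only [Matrix.of_apply, Matrix.cons_val_zero, Matrix.cons_val_one, Matrix.cons_val]
  norm_num

theorem formValue_B (k m : ℕ) (K : Type) [Field K] [CharZero K] (y : Fin 3 ⊕ Fin m → K) :
    formValue k (B m) K y =
      (y (Sum.inl 0) ^ k - 2 * y (Sum.inl 1) ^ k) ^ 2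
        + 2 * (y (Sum.inl 0) ^ k * y (Sum.inl 2) ^ k) + (y (Sum.inl 2) ^ k) ^ 2
        + ∑ j, (y (Sum.inr j) ^ k) ^ 2 := by
  unfold formValue B
  rw [Fintype.sum_sum_type]
  have h1 : ∀ i : Fin 3, ∑ j, (((Matrix.fromBlocks A 0 0 (1 : Matrix (Fin m) (Fin m) ℚ))
      (Sum.inl i) j : ℚ) : K) * y (Sum.inl i) ^ k * y j ^ k
      = ∑ j : Fin 3, ((A i j : ℚ) : K) * y (Sum.inl i) ^ k * y (Sum.inl j) ^ k := by
    intro i
    rw [Fintype.sum_sum_type]
    simp
  have h2 : ∀ i : Fin m, ∑ j, (((Matrix.fromBlocks A 0 0 (1 : Matrix (Fin m) (Fin m) ℚ))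
      (Sum.inr i) j : ℚ) : K) * y (Sum.inr i) ^ k * y j ^ k
      = (y (Sum.inr i) ^ k) ^ 2 := by
    intro i
    rw [Fintype.sum_sum_type]
    simp only [Matrix.fromBlocks_apply₂₁, Matrix.zero_apply, Rat.cast_zero, zero_mul,
      Finset.sum_const_zero, zero_add, Matrix.fromBlocks_apply₂₂, Matrix.one_apply]
    rw [Finset.sum_eq_single i]
    · simp; ring
    · intro j _ hj
      rw [if_neg (Ne.symm hj)]
      simp
    · intro hi
      exact absurd (Finset.mem_univ i) hi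
  simp_rw [h1, h2]
  congr 1
  simp only [Fin.sum_univ_three, A, Matrix.of_apply, Matrix.cons_val_zero, Matrix.cons_val_one,
    Matrix.cons_val, Rat.cast_one, Rat.cast_neg, Rat.cast_ofNat, Rat.cast_zero]
  ring

theorem no_rational_zero (k m : ℕ) (hk : 0 < k) (hke : Even k) : ¬ HasZero k (B m) ℚ := by
  rintro ⟨y, hy0, hy⟩
  rw [formValue_B] at hy
  have hnn : ∀ i, 0 ≤ y i ^ k := fun i => hke.pow_nonneg _
  have t1 : 0 ≤ (y (Sum.inl 0) ^ k - 2 * y (Sum.inl 1) ^ k) ^ 2 := sq_nonneg _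
  have t2 : 0 ≤ y (Sum.inl 0) ^ k * y (Sum.inl 2) ^ k := mul_nonneg (hnn _) (hnn _)
  have t3 : 0 ≤ (y (Sum.inl 2) ^ k) ^ 2 := sq_nonneg _
  have t4 : 0 ≤ ∑ j, (y (Sum.inr j) ^ k) ^ 2 := Finset.sum_nonneg fun _ _ => sq_nonneg _
  have e1 : (y (Sum.inl 0) ^ k - 2 * y (Sum.inl 1) ^ k) ^ 2 = 0 := by linarith
  have e3 : (y (Sum.inl 2) ^ k) ^ 2 = 0 := by linarith
  have e4 : ∑ j, (y (Sum.inr j) ^ k) ^ 2 = 0 := by linarith
  have z2 : y (Sum.inl 2) = 0 := by
    have := pow_eq_zero_iff (two_ne_zero) |>.mp e3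
    exact (pow_eq_zero_iff hk.ne').mp this
  have zj : ∀ j, y (Sum.inr j) = 0 := by
    intro j
    rw [Finset.sum_eq_zero_iff_of_nonneg (fun _ _ => sq_nonneg _)] at e4
    have := e4 j (Finset.mem_univ j)
    have := pow_eq_zero_iff (two_ne_zero) |>.mp this
    exact (pow_eq_zero_iff hk.ne').mp this
  have e0 : y (Sum.inl 0) ^ k = 2 * y (Sum.inl 1) ^ k := by
    have := pow_eq_zero_iff (two_ne_zero) |>.mp e1
    linarith
  have z1 : y (Sum.inl 1) = 0 := by
    by_contra hne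
    have hne0 : y (Sum.inl 0) ≠ 0 := by
      intro h0
      rw [h0, zero_pow hk.ne'] at e0
      have : y (Sum.inl 1) ^ k = 0 := by linarith
      exact hne ((pow_eq_zero_iff hk.ne').mp this)
    have hv := congrArg (padicValRat 2) e0
    rw [padicValRat.pow, padicValRat.mul two_ne_zero (pow_ne_zero _ hne),
      padicValRat.pow] at hv
    have h22 : padicValRat 2 (2 : ℚ) = 1 := by
      have := padicValRat.self (p := 2) (by norm_num)
      exact_mod_cast this
    rw [h22] at hv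
    have hdvd : (k : ℤ) ∣ 1 := by
      refine ⟨padicValRat 2 (y (Sum.inl 0)) - padicValRat 2 (y (Sum.inl 1)), ?_⟩
      linarith
    have := Int.natAbs_dvd_natAbs.mpr hdvd
    simp at this
    subst this
    exact absurd hke (by decide)
  have z0 : y (Sum.inl 0) = 0 := by
    rw [z1, zero_pow hk.ne', mul_zero] at e0
    exact (pow_eq_zero_iff hk.ne').mp e0
  apply hy0
  funext i
  rcases i with i | j
  · fin_cases i
    · exact z0
    · exact z1
    · exact z2
  · exact zj j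

theorem real_zero (k m : ℕ) (hk : 0 < k) : HasZero k (B m) ℝ := by
  refine ⟨Sum.elim ![(2 : ℝ) ^ ((k : ℝ)⁻¹), 1, 0] (fun _ => 0), ?_, ?_⟩
  · intro h0
    have := congrFun h0 (Sum.inl 1)
    simp at this
  · rw [formValue_B]
    have : ((2 : ℝ) ^ ((k : ℝ)⁻¹)) ^ k = 2 := Real.rpow_inv_natCast_pow (by norm_num) hk.ne'
    simp [this, hk.ne']

theorem padic_zero_B (k m : ℕ) (hk : 0 < k) (hm : (2 * k) ^ 3 ≤ m) (p : ℕ) [Fact p.Prime] :
    HasZero k (B m) ℚ_[p] := by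
  obtain ⟨x, hx0, hx⟩ := padic_zero p (2 * k) m hm (by omega)
  refine ⟨Sum.elim (fun _ => 0) x, ?_, ?_⟩
  · intro h0
    apply hx0
    funext j
    have := congrFun h0 (Sum.inr j)
    simpa using this
  · rw [formValue_B]
    have : ∀ j, (x j ^ k) ^ 2 = x j ^ (2 * k) := by
      intro j; rw [← pow_mul, mul_comm]
    simp [this, hx, hk.ne']

/-! ### Transport to `Fin s` -/

theorem formValue_reindex {ι κ : Type} [Fintype ι] [Fintype κ] (e : ι ≃ κ) (k : ℕ)
    (M : Matrix ι ι ℚ) (K : Type) [Field K] (y : κ → K) :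
    formValue k (Matrix.reindex e e M) K y = formValue k M K (y ∘ e) := by
  unfold formValue
  rw [← Equiv.sum_comp e]
  refine Finset.sum_congr rfl fun i _ => ?_
  rw [← Equiv.sum_comp e]
  refine Finset.sum_congr rfl fun j _ => ?_
  simp

theorem hasZero_reindex {ι κ : Type} [Fintype ι] [Fintype κ] (e : ι ≃ κ) (k : ℕ)
    (M : Matrix ι ι ℚ) (K : Type) [Field K] :
    HasZero k (Matrix.reindex e e M) K ↔ HasZero k M K := by
  constructor
  · rintro ⟨y, hy0, hy⟩
    refine ⟨y ∘ e, ?_, ?_⟩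
    · intro h0
      apply hy0
      funext i
      have := congrFun h0 (e.symm i)
      simpa using this
    · rwa [← formValue_reindex]
  · rintro ⟨y, hy0, hy⟩
    refine ⟨y ∘ e.symm, ?_, ?_⟩
    · intro h0
      apply hy0
      funext i
      have := congrFun h0 (e i)
      simpa using this
    · rw [formValue_reindex]
      convert hy using 2
      funext i
      simp

/-- The counterexample: `k` even, `s ≥ 8 k ^ 3 + 3`. -/
theorem counterexample (k : ℕ) (hk : 0 < k) (hke : Even k) (s : ℕ) (hs : 8 * k ^ 3 + 3 ≤ s) :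
    ∃ M : Matrix (Fin s) (Fin s) ℚ, M.IsSymm ∧ M.det ≠ 0 ∧ HasZero k M ℝ ∧
      (∀ (p : ℕ) [Fact p.Prime], HasZero k M ℚ_[p]) ∧ ¬ HasZero k M ℚ := by
  obtain ⟨m, rfl⟩ : ∃ m, s = 3 + m := ⟨s - 3, by omega⟩
  have hm : (2 * k) ^ 3 ≤ m := by
    have : (2 * k) ^ 3 = 8 * k ^ 3 := by ring
    omega
  refine ⟨Matrix.reindex finSumFinEquiv finSumFinEquiv (B m), ?_, ?_, ?_, ?_, ?_⟩
  · have := B_symm m
    unfold Matrix.IsSymm at this ⊢
    rw [Matrix.transpose_reindex, this]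
  · rw [Matrix.det_reindex_self]
    exact B_det m
  · rw [hasZero_reindex]
    exact real_zero k m hk
  · intro p _
    rw [hasZero_reindex]
    exact padic_zero_B k m hk hm p
  · rw [hasZero_reindex]
    exact no_rational_zero k m hk hke

theorem not_admissible (k : ℕ) (hk : 0 < k) (hke : Even k) (s₀ : ℕ) : ¬ Admissible k s₀ := by
  intro hadm
  obtain ⟨M, hM1, hM2, hR, hP, hQ⟩ :=
    counterexample k hk hke (max s₀ (8 * k ^ 3 + 3)) (le_max_right _ _)
  exact hQ (hadm _ (le_max_left _ _) M hM1 hM2 ⟨hR, hP⟩)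

theorem h_eq_top (k : ℕ) (hk : 0 < k) (hke : Even k) : h k = ⊤ := by
  unfold h
  simp only [iInf_eq_top, Set.mem_ofPred_eq]
  intro s₀ hs₀
  exact absurd hs₀ (not_admissible k hk hke s₀)

/-- **Main result.** For every even `k > 0` and every `s ≥ 8 k ^ 3 + 3` there is a nonsingular
rational quadratic form `Q` in `s` variables for which `Q(y ^ k)` violates the Hasse principle.
Hence `h k = ∞` for every even `k > 0`, and the assertion `log h(k) = o(k)` fails. -/
theorem result :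
    (∀ k : ℕ, 0 < k → Even k → ∀ s : ℕ, 8 * k ^ 3 + 3 ≤ s →
      ∃ M : Matrix (Fin s) (Fin s) ℚ, M.IsSymm ∧ M.det ≠ 0 ∧ HasZero k M ℝ ∧
        (∀ (p : ℕ) [Fact p.Prime], HasZero k M ℚ_[p]) ∧ ¬ HasZero k M ℚ) ∧
    (∀ k : ℕ, 0 < k → Even k → h k = ⊤) ∧ ¬ LogLittleO := by
  refine ⟨fun k hk hke s hs => counterexample k hk hke s hs, h_eq_top, ?_⟩
  intro hL
  obtain ⟨K, hK⟩ := hL 1 one_pos
  have := (hK (2 * (K + 1)) (by omega)).1
  exact this (h_eq_top _ (by omega) (even_two_mul _))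

end Pool.Agent.Results.MP_c0a553_nt.EvenExponents
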