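import Pool.Agent.Lib.MP_c0a553_nt.MainSigns

/-!
# MP_c0a553_nt : the Hasse principle for `Q(y₁^k, …, y_s^k)` in polynomially many variables

Let `Q` be a nonsingular rational quadratic form in `s` variables and `F(y) = Q(y₁^k, …, y_s^k)`.
If `s ≥ 10^21 · k^68` and `F` takes both signs on `ℝ^s`, then `F` has a nontrivial rational zero.
For odd `k` the Hasse principle holds for all `F` as soon as `s ≥ 3 · 10^13 · k^14`.
-/

namespace Pool.Agent.Results.MP_c0a553_nt.IndefiniteForms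

open Pool.Agent.Lib.MP_c0a553_nt

/-- For a rational matrix `M` (the Gram matrix of the quadratic form
`Q(x) = ∑ i j, M i j * x i * x j`) and a field `K`, the value at `y ∈ K^s` of
`F(y) = Q(y ^ k) = ∑ i j, M i j * (y i) ^ k * (y j) ^ k`. -/
noncomputable def formValue {s : ℕ} (k : ℕ) (M : Matrix (Fin s) (Fin s) ℚ)
    (K : Type) [Field K] (y : Fin s → K) : K :=
  ∑ i, ∑ j, ((M i j : ℚ) : K) * y i ^ k * y j ^ k

/-- `F(y) = Q(y ^ k)` has a nontrivial zero over the field `K`. -/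
def HasZero {s : ℕ} (k : ℕ) (M : Matrix (Fin s) (Fin s) ℚ) (K : Type) [Field K] : Prop :=
  ∃ y : Fin s → K, y ≠ 0 ∧ formValue k M K y = 0

/-- The form `F(y) = Q(y ^ k)` takes both positive and negative values on `ℝ^s`. -/
def Indefinite {s : ℕ} (k : ℕ) (M : Matrix (Fin s) (Fin s) ℚ) : Prop :=
  (∃ y : Fin s → ℝ, 0 < formValue k M ℝ y) ∧ ∃ y : Fin s → ℝ, formValue k M ℝ y < 0

/-- The form `F(y) = Q(y ^ k)` satisfies the Hasse principle. -/
def HassePrinciple {s : ℕ} (k : ℕ) (M : Matrix (Fin s) (Fin s) ℚ) : Prop :=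
  (HasZero k M ℝ ∧ ∀ (p : ℕ) [Fact p.Prime], HasZero k M ℚ_[p]) → HasZero k M ℚ

/-- `h k` is the least `s₀` such that for every `s ≥ s₀` every form `Q(y ^ k)`, `Q` a nonsingular
rational quadratic form in `s` variables, satisfies the Hasse principle (`⊤` if there is none). -/
noncomputable def h (k : ℕ) : ℕ∞ :=
  ⨅ s₀ ∈ {s₀ : ℕ | ∀ s : ℕ, s₀ ≤ s → ∀ M : Matrix (Fin s) (Fin s) ℚ, M.IsSymm → M.det ≠ 0 →
    HassePrinciple k M}, (s₀ : ℕ∞)

/-- `hInd k` is the least `s₀` such that for every `s ≥ s₀` every form `Q(y ^ k)` that takes both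
signs on `ℝ^s`, `Q` a nonsingular rational quadratic form in `s` variables, satisfies the Hasse
principle (`⊤` if there is none). -/
noncomputable def hInd (k : ℕ) : ℕ∞ :=
  ⨅ s₀ ∈ {s₀ : ℕ | ∀ s : ℕ, s₀ ≤ s → ∀ M : Matrix (Fin s) (Fin s) ℚ, M.IsSymm → M.det ≠ 0 →
    Indefinite k M → HassePrinciple k M}, (s₀ : ℕ∞)

/-- `f(k)` is finite and `log f(k) = o(k)` as `k → ∞` in the set `A`. -/
def LogLittleO (A : Set ℕ) (f : ℕ → ℕ∞) : Prop :=
  ∀ ε : ℝ, 0 < ε → ∃ K : ℕ, ∀ k : ℕ, K ≤ k → k ∈ A →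
    f k ≠ ⊤ ∧ Real.log ((f k).toNat : ℝ) ≤ ε * k

/-! ### Reduction to an integral matrix -/

/-- clearing denominators -/
private lemma exists_int {s : ℕ} (M : Matrix (Fin s) (Fin s) ℚ) :
    ∃ (N : ℕ) (M' : Matrix (Fin s) (Fin s) ℤ), N ≠ 0 ∧ ∀ i j, ((M' i j : ℤ) : ℚ) = N * M i j := by
  classical
  refine ⟨∏ i, ∏ j, (M i j).den, fun i j => (M i j).num *
    ((∏ p ∈ (Finset.univ : Finset (Fin s × Fin s)).erase (i, j), (M p.1 p.2).den : ℕ) : ℤ), ?_, ?_⟩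
  · exact Finset.prod_ne_zero_iff.2 fun i _ => Finset.prod_ne_zero_iff.2 fun j _ =>
      (M i j).den_ne_zero
  · intro i j
    have h1 : (∏ i, ∏ j, (M i j).den) = (M i j).den *
        ∏ p ∈ (Finset.univ : Finset (Fin s × Fin s)).erase (i, j), (M p.1 p.2).den := by
      rw [Finset.mul_prod_erase (Finset.univ : Finset (Fin s × Fin s))
        (fun p => (M p.1 p.2).den) (Finset.mem_univ (i, j))]
      rw [← Finset.univ_product_univ, Finset.prod_product]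
    rw [h1]
    push_cast
    have h2 : ((M i j).num : ℚ) = (M i j).den * M i j := by
      rw [mul_comm]; exact (Rat.mul_den_eq_num _).symm
    rw [h2]
    ring

private lemma symm_int {s : ℕ} {M : Matrix (Fin s) (Fin s) ℚ} {N : ℕ}
    {M' : Matrix (Fin s) (Fin s) ℤ} (h : ∀ i j, ((M' i j : ℤ) : ℚ) = N * M i j)
    (hM : M.IsSymm) : M'.IsSymm := by
  ext i j
  rw [Matrix.transpose_apply]
  have h1 := h i j
  have h2 := h j i
  rw [hM.apply i j] at h2
  have : ((M' j i : ℤ) : ℚ) = ((M' i j : ℤ) : ℚ) := by rw [h1, h2]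
  exact_mod_cast this

private lemma det_int {s : ℕ} {M : Matrix (Fin s) (Fin s) ℚ} {N : ℕ}
    {M' : Matrix (Fin s) (Fin s) ℤ} (hN : N ≠ 0) (h : ∀ i j, ((M' i j : ℤ) : ℚ) = N * M i j)
    (hM : M.det ≠ 0) : M'.det ≠ 0 := by
  intro h0
  have h1 : M'.map (Int.castRingHom ℚ) = (N : ℚ) • M := by
    ext i j
    simp [h i j]
  have h2 : (M'.map (Int.castRingHom ℚ)).det = 0 := by
    rw [← RingHom.mapMatrix_apply, ← RingHom.map_det, h0, map_zero]
  rw [h1, Matrix.det_smul] at h2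
  have h3 : (N : ℚ) ≠ 0 := by exact_mod_cast hN
  exact (mul_ne_zero (pow_ne_zero _ h3) hM) h2

private lemma value_int {s : ℕ} (k : ℕ) {M : Matrix (Fin s) (Fin s) ℚ} {N : ℕ}
    {M' : Matrix (Fin s) (Fin s) ℤ} (h : ∀ i j, ((M' i j : ℤ) : ℚ) = N * M i j)
    (K : Type) [Field K] [CharZero K] (y : Fin s → K) :
    MvPolynomial.aeval y (FF k M') = N * formValue k M K y := by
  rw [eval_FF, formValue, Finset.mul_sum]
  refine Finset.sum_congr rfl fun i _ => ?_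
  rw [Finset.mul_sum]
  refine Finset.sum_congr rfl fun j _ => ?_
  have h1 : ((M' i j : ℤ) : K) = (N : K) * ((M i j : ℚ) : K) := by
    have := congrArg (fun q : ℚ => (q : K)) (h i j)
    simpa using this
  rw [h1]
  ring

private lemma hasZero_of_int {s : ℕ} (k : ℕ) {M : Matrix (Fin s) (Fin s) ℚ} {N : ℕ}
    {M' : Matrix (Fin s) (Fin s) ℤ} (hN : N ≠ 0) (h : ∀ i j, ((M' i j : ℤ) : ℚ) = N * M i j)
    (y : Fin s → ℤ) (hy : y ≠ 0) (hz : MvPolynomial.eval y (FF k M') = 0) : HasZero k M ℚ := by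
  refine ⟨fun i => (y i : ℚ), ?_, ?_⟩
  · intro h0
    apply hy
    ext i
    have := congrFun h0 i
    simpa using this
  · have h1 := value_int k h ℚ (fun i => (y i : ℚ))
    have h2 : MvPolynomial.aeval (fun i => (y i : ℚ)) (FF k M') = 0 := by
      have h3 := eval_FF k M' ℚ (fun i => (y i : ℚ))
      have h4 := eval_FF k M' ℤ y
      rw [aeval_int, hz] at h4
      rw [h3]
      have h5 := congrArg (fun z : ℤ => (z : ℚ)) h4
      push_cast at h5
      simpa using h5.symm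
    rw [h2] at h1
    have h3 : (N : ℚ) ≠ 0 := by exact_mod_cast hN
    rcases mul_eq_zero.1 h1.symm with h4 | h4
    · exact absurd h4 h3
    · exact h4

private lemma s₀_le (k : ℕ) (hk : 1 ≤ k) : s₀ k ≤ 3 * 10 ^ 13 * k ^ 14 := by
  have h1 : tt k = 80 * k ^ 3 := by unfold tt; ring
  have h2 : rr k ≤ 5120000 * k ^ 7 := by
    unfold rr
    rw [h1]
    calc 400 * (80 * k ^ 3) ^ 2 * (k + 1) ≤ 400 * (80 * k ^ 3) ^ 2 * (k + k) := by gcongr
      _ = 5120000 * k ^ 7 := by ring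
  have e1 : k ≤ k ^ 8 := Nat.le_self_pow (by norm_num) k
  have e2 : 1 ≤ k ^ 8 := Nat.one_le_pow _ _ hk
  have e3 : k ^ 7 ≤ k ^ 14 := Nat.pow_le_pow_right hk (by norm_num)
  have h3 : vv k ≤ 200 * (80 * k ^ 3) ^ 2 * (4 * 5120000 * k ^ 8 + 4 * k ^ 8 + 2 * k ^ 8) := by
    unfold vv
    rw [h1]
    have : 4 * k * rr k ≤ 4 * 5120000 * k ^ 8 := by
      calc 4 * k * rr k ≤ 4 * k * (5120000 * k ^ 7) := by gcongr
        _ = 4 * 5120000 * k ^ 8 := by ring
    gcongr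
    omega
  have h4 : 200 * (80 * k ^ 3) ^ 2 * (4 * 5120000 * k ^ 8 + 4 * k ^ 8 + 2 * k ^ 8) =
      26214407680000 * k ^ 14 := by ring
  unfold s₀
  omega

private lemma pow_le (k : ℕ) (hk : 1 ≤ k) {a b : ℕ} (h : a ≤ b) : k ^ a ≤ k ^ b :=
  Nat.pow_le_pow_right hk h

private lemma n1_le (k : ℕ) (hk : 1 ≤ k) : n1 k ≤ 19 * k ^ 4 := by
  have h1 : n1 k = 1 + 16 * k ^ 4 + 2 * k := by unfold n1 Nsys; ring
  have h2 : k ≤ k ^ 4 := Nat.le_self_pow (by norm_num) k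
  have h3 : 1 ≤ k ^ 4 := Nat.one_le_pow _ _ hk
  omega

private lemma Nsys_le (r k : ℕ) (hr : 1 ≤ r) (hk : 1 ≤ k) : Nsys r k ≤ 3 * r ^ 3 * k ^ 4 := by
  unfold Nsys
  have h1 : 1 ≤ r * k ^ 3 := Nat.one_le_iff_ne_zero.2 (by positivity)
  have h2 : 1 ≤ r ^ 3 * k ^ 4 := Nat.one_le_iff_ne_zero.2 (by positivity)
  calc 1 + r ^ 2 * (k * (r * k ^ 3 + 1)) ≤ r ^ 3 * k ^ 4 + r ^ 2 * (k * (r * k ^ 3 + r * k ^ 3)) := by
        gcongr
    _ = 3 * r ^ 3 * k ^ 4 := by ring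

private lemma r1_le (k : ℕ) (hk : 1 ≤ k) : r1 k ≤ 823080 * k ^ 20 := by
  have hn : 1 ≤ n1 k := by unfold n1 Nsys; omega
  have h3 : 1 ≤ k ^ 4 := Nat.one_le_pow _ _ hk
  calc r1 k = 2 * (n1 k + 1) * Nsys (n1 k) k := rfl
    _ ≤ 2 * (n1 k + 1) * (3 * (n1 k) ^ 3 * k ^ 4) := by
        gcongr; exact Nsys_le _ _ hn hk
    _ ≤ 2 * (19 * k ^ 4 + k ^ 4) * (3 * (19 * k ^ 4) ^ 3 * k ^ 4) := by
        have := n1_le k hk
        gcongr
    _ = 823080 * k ^ 20 := by ring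

private lemma s₁_le (k : ℕ) (hk : 1 ≤ k) : s₁ k ≤ 10 ^ 21 * k ^ 68 := by
  have hn : 1 ≤ n1 k := by unfold n1 Nsys; omega
  have hr : 1 ≤ 2 * r1 k := by
    have : 1 ≤ r1 k := by
      unfold r1
      have : 1 ≤ Nsys (n1 k) k := by unfold Nsys; omega
      nlinarith
    omega
  have h1 : v1 k ≤ 19 * k ^ 4 * (3 * (2 * (823080 * k ^ 20)) ^ 3 * k ^ 4) := by
    calc v1 k = n1 k * Nsys (2 * r1 k) k := rfl
      _ ≤ n1 k * (3 * (2 * r1 k) ^ 3 * k ^ 4) := by gcongr; exact Nsys_le _ _ hr hk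
      _ ≤ 19 * k ^ 4 * (3 * (2 * (823080 * k ^ 20)) ^ 3 * k ^ 4) := by
        have := n1_le k hk
        have := r1_le k hk
        gcongr
  have h2 : 19 * k ^ 4 * (3 * (2 * (823080 * k ^ 20)) ^ 3 * k ^ 4) =
      (19 * 3 * 8 * 823080 ^ 3) * k ^ 68 := by ring
  have h3 := r1_le k hk
  have h4 : k ^ 20 ≤ k ^ 68 := pow_le k hk (by norm_num)
  unfold s₁
  norm_num at h2
  omega

/-- indefinite forms represent zero -/
theorem indefinite (k : ℕ) (hk : 1 ≤ k) (s : ℕ) (hs : 10 ^ 21 * k ^ 68 ≤ s)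
    (M : Matrix (Fin s) (Fin s) ℚ) (hM : M.IsSymm) (hdet : M.det ≠ 0) (hI : Indefinite k M) :
    HasZero k M ℚ := by
  obtain ⟨N, M', hN, h⟩ := exists_int M
  have hM' := symm_int h hM
  have hdet' := det_int hN h hdet
  have hN' : (0 : ℝ) < N := by exact_mod_cast Nat.pos_of_ne_zero hN
  obtain ⟨⟨y, hy⟩, z, hz⟩ := hI
  have hs0 : s₀ k ≤ s := by
    refine (s₀_le k hk).trans (le_trans ?_ hs)
    have : k ^ 14 ≤ k ^ 68 := Nat.pow_le_pow_right hk (by norm_num)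
    calc 3 * 10 ^ 13 * k ^ 14 ≤ 10 ^ 21 * k ^ 14 := by gcongr; norm_num
      _ ≤ 10 ^ 21 * k ^ 68 := by gcongr
  obtain ⟨u, hu, hu0⟩ := main_signs k hk hs0 ((s₁_le k hk).trans hs) M' hM' hdet'
    ⟨y, by rw [value_int k h ℝ y]; positivity⟩
    ⟨z, by rw [value_int k h ℝ z]; exact mul_neg_of_pos_of_neg hN' hz⟩
  exact hasZero_of_int k hN h u hu hu0

/-- the Hasse principle for odd `k` -/
theorem odd (k : ℕ) (hk : Odd k) (s : ℕ) (hs : s₀ k ≤ s) (M : Matrix (Fin s) (Fin s) ℚ)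
    (hM : M.IsSymm) (hdet : M.det ≠ 0) : HassePrinciple k M := by
  rintro ⟨hR, hp⟩
  obtain ⟨N, M', hN, h⟩ := exists_int M
  have hM' := symm_int h hM
  have hdet' := det_int hN h hdet
  have hk1 : 1 ≤ k := hk.pos
  by_cases hdiag : ∀ i, M' i i ≠ 0
  · have key : ∀ (K : Type) [NontriviallyNormedField K] [CharZero K]
        (_ : ∀ n : ℕ, 1 ≤ n → ∃ δ : ℝ, 0 < δ ∧ ∀ z : K, ‖z‖ < δ → ∃ w : K, w ^ n = 1 + z),
        HasZero k M K → NonsingZero (FF k M') K := by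
      intro K _ _ hroot hz
      obtain ⟨y, hy, hz⟩ := hz
      refine odd_nonsing k hk M' hM' hdet' hdiag K hroot y hy ?_
      rw [value_int k h K y, hz, mul_zero]
    obtain ⟨y, hy, hz⟩ := main_int k hk1 hs M' hM' hdet' (key ℝ (fun n hn => root_real n hn) hR)
      (fun p _ => key ℚ_[p] (fun n hn => root_padic p n hn) (hp p))
    exact hasZero_of_int k hN h y hy hz
  · push Not at hdiag
    obtain ⟨i, hi⟩ := hdiag
    refine hasZero_of_int k hN h (Pi.single i 1) ?_ ?_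
    · intro h0
      have := congrFun h0 i
      simp at this
    · have h1 := eval_FF k M' ℤ (Pi.single i 1)
      rw [aeval_int] at h1
      rw [h1]
      apply Finset.sum_eq_zero
      intro a _
      apply Finset.sum_eq_zero
      intro b _
      by_cases ha : a = i
      · by_cases hb : b = i
        · subst ha; subst hb
          simp [hi]
        · rw [Pi.single_eq_of_ne hb, zero_pow (by omega), mul_zero]
      · rw [Pi.single_eq_of_ne ha, zero_pow (by omega), mul_zero, zero_mul]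

private lemma iInf_le_of_mem {A : Set ℕ} {n : ℕ} (h : n ∈ A) :
    (⨅ s₀ ∈ A, ((s₀ : ℕ) : ℕ∞)) ≤ (n : ℕ∞) := by
  exact iInf₂_le n h

theorem hInd_le (k : ℕ) (hk : 1 ≤ k) : hInd k ≤ ((10 ^ 21 * k ^ 68 : ℕ) : ℕ∞) :=
  iInf_le_of_mem fun s hs M hM hdet hI _ => indefinite k hk s hs M hM hdet hI

theorem h_le (k : ℕ) (hk : Odd k) : h k ≤ ((3 * 10 ^ 13 * k ^ 14 : ℕ) : ℕ∞) :=
  iInf_le_of_mem fun s hs M hM hdet => odd k hk s ((s₀_le k hk.pos).trans hs) M hM hdet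

private lemma log_bound (C A : ℕ) (hC : 1 ≤ C) (ε : ℝ) (hε : 0 < ε) :
    ∃ K : ℕ, 1 ≤ K ∧ ∀ k : ℕ, K ≤ k → Real.log ((C * k ^ A : ℕ) : ℝ) ≤ ε * k := by
  have h1 : Filter.Tendsto (fun k : ℕ => Real.log C / (k : ℝ) +
      A * (Real.log k / k)) Filter.atTop (nhds 0) := by
    have h2 : Filter.Tendsto (fun k : ℕ => Real.log C / (k : ℝ)) Filter.atTop
        (nhds 0) := tendsto_const_div_atTop_nhds_zero_nat _
    have h3 : Filter.Tendsto (fun k : ℕ => Real.log (k : ℝ) / (k : ℝ)) Filter.atTop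
        (nhds 0) := by
      have := (Real.isLittleO_log_id_atTop.tendsto_div_nhds_zero).comp
        tendsto_natCast_atTop_atTop
      simpa [Function.comp_def] using this
    have := h2.add (h3.const_mul (A : ℝ))
    simpa using this
  have h4 := (h1.eventually (gt_mem_nhds hε)).and (Filter.eventually_ge_atTop 1)
  obtain ⟨K, hK⟩ := Filter.eventually_atTop.1 h4
  refine ⟨max K 1, le_max_right _ _, fun k hk => ?_⟩
  obtain ⟨h5, h6⟩ := hK k ((le_max_left _ _).trans hk)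
  have hk0 : (0 : ℝ) < k := by exact_mod_cast h6
  have hC0 : (C : ℝ) ≠ 0 := by
    have : C ≠ 0 := by omega
    exact_mod_cast this
  have h7 : Real.log ((C * k ^ A : ℕ) : ℝ) = Real.log C + A * Real.log k := by
    push_cast
    rw [Real.log_mul hC0 (by positivity), Real.log_pow]
  rw [h7]
  have h8 : Real.log C + A * Real.log k =
      (Real.log C / (k : ℝ) + A * (Real.log k / k)) * k := by
    field_simp
  rw [h8]
  exact mul_le_mul_of_nonneg_right h5.le hk0.le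

private lemma littleO (A : Set ℕ) (f : ℕ → ℕ∞) (C B : ℕ) (hC : 1 ≤ C)
    (hf : ∀ k : ℕ, 1 ≤ k → k ∈ A → f k ≤ ((C * k ^ B : ℕ) : ℕ∞)) :
    LogLittleO A f := by
  intro ε hε
  obtain ⟨K, hK1, hK⟩ := log_bound C B hC ε hε
  refine ⟨K, fun k hk hkA => ?_⟩
  have h1 := hf k (hK1.trans hk) hkA
  have h2 : f k ≠ ⊤ := fun h => by
    rw [h, top_le_iff] at h1
    exact ENat.natCast_ne_top _ h1
  refine ⟨h2, ?_⟩
  have h3 : (f k).toNat ≤ C * k ^ B := by
    obtain ⟨n, hn⟩ := ENat.ne_top_iff_exists.1 h2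
    rw [← hn] at h1 ⊢
    rw [ENat.toNat_natCast]
    exact_mod_cast h1
  rcases Nat.eq_zero_or_pos (f k).toNat with h0 | h0
  · rw [h0, Nat.cast_zero, Real.log_zero]
    positivity
  · refine le_trans (Real.log_le_log (by exact_mod_cast h0) ?_) (hK k hk)
    exact_mod_cast h3

/-- **Main result.** Every nonsingular `Q(y ^ k)` in `s ≥ 10^21 · k^68` variables that takes both
signs on `ℝ^s` has a nontrivial rational zero; for odd `k` the Hasse principle holds for every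
nonsingular `Q(y ^ k)` in `s ≥ 3 · 10^13 · k^14` variables, i.e. `h(k) ≤ 3 · 10^13 · k^14`.
In particular `log hInd(k) = o(k)`, and `log h(k) = o(k)` along the odd `k`. -/
theorem result :
    (∀ k s : ℕ, 1 ≤ k → 10 ^ 21 * k ^ 68 ≤ s → ∀ M : Matrix (Fin s) (Fin s) ℚ, M.IsSymm →
      M.det ≠ 0 → Indefinite k M → HasZero k M ℚ) ∧
    (∀ k : ℕ, Odd k → h k ≤ ((3 * 10 ^ 13 * k ^ 14 : ℕ) : ℕ∞)) ∧
    LogLittleO Set.univ hInd ∧ LogLittleO {k | Odd k} h :=
  ⟨fun k s hk hs M hM hdet hI => indefinite k hk s hs M hM hdet hI, h_le,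
    littleO _ _ (10 ^ 21) 68 (by norm_num) fun k hk _ => hInd_le k hk,
    littleO _ _ (3 * 10 ^ 13) 14 (by norm_num) fun k _ hk => h_le k hk⟩

end Pool.Agent.Results.MP_c0a553_nt.IndefiniteForms
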